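import Pool.Agent.Lib.MP_305fdd_al.F8.NG.A.Stm
import Pool.Agent.Lib.MP_305fdd_al.F8.MainPT

/-!
# MP_305fdd_al, hyperbolic monodromies: p-adic exceptional values
-/

set_option autoImplicit false

namespace Pool.Agent.F8.NG.A

open Pool.Agent.MP_305fdd_al Pool.Agent.Lib.MP_305fdd_al Pool.Agent.F2X Pool.Agent.F8
  Pool.Agent.F8.HN
open scoped QuadraticAlgebra



private lemma A2N_thn (q : ℤ) (R : Type) [CommRing R] (e : ℤ) : (thu q R ^ e).val.norm = 1 := by
  have h1 : Units.map (QuadraticAlgebra.norm : Qd q R →* R) (thu q R) = 1 := by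
    apply Units.ext
    show QuadraticAlgebra.norm (th q R) = 1
    rw [QuadraticAlgebra.norm_def]
    simp [th]
  have h2 : Units.map (QuadraticAlgebra.norm : Qd q R →* R) (thu q R ^ e) = 1 := by
    rw [map_zpow, h1, one_zpow]
  exact congrArg Units.val h2

private lemma A2N_key (q : ℤ) (G Λ : Type) [Group G] [Group Λ] (Φ : NatBij G Λ)
    (nG : G →* Multiplicative ℤ) (nL : Λ →* Multiplicative ℤ)
    (hex : ∀ (m : ℕ) [NeZero m], ∃ e : ℤ, ExG Φ nG nL m e ∧ IsCoprime e (m : ℤ))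
    (p : ℕ) [Fact p.Prime] (σ : (Qd q ℤ_[p])ˣ)
    (hσ : SigA q Φ nG nL p σ) (k : ℕ) : ∃ (m : ℕ) (e : ℤ), IsCoprime e (m : ℤ) ∧
      thu q (ZMod (p ^ k)) ^ m = 1 ∧
      Units.map (Qd.map q (PadicInt.toZModPow k)).toMonoidHom σ =
        thu q (ZMod (p ^ k)) ^ e := by
  have hm : Nat.card (Qd q (ZMod (p ^ k)))ˣ ≠ 0 := Nat.card_pos.ne'
  have : NeZero (Nat.card (Qd q (ZMod (p ^ k)))ˣ) := ⟨hm⟩
  obtain ⟨e, he1, he2⟩ := hex (Nat.card (Qd q (ZMod (p ^ k)))ˣ)
  have h1 : thu q (ZMod (p ^ k)) ^ Nat.card (Qd q (ZMod (p ^ k)))ˣ = 1 := pow_card_eq_one'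
  exact ⟨_, e, he2, h1, hσ.red k _ e he1 h1⟩

theorem p_A2A (hg1 : S_g1) : S_A2A := by
  intro q hq G Λ _ _ Φ nG nL hex p hp σ hσ
  have hnorm : σ.val.norm = 1 := by
    rw [← PadicInt.ext_of_toZModPow]
    intro k
    obtain ⟨m, e, -, -, h⟩ := A2N_key q G Λ Φ nG nL hex p σ hσ k
    rw [map_one, ← ((pf_nc _ _ (PadicInt.toZModPow k)).1 q σ.val).1]
    have h2 : (Qd.map q (PadicInt.toZModPow k) σ.val).norm =
        (thu q (ZMod (p ^ k)) ^ e).val.norm := by
      rw [← h]; rfl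
    rw [h2, A2N_thn]
  refine ⟨hnorm, ?_⟩
  intro him
  have hre : σ.val.re * σ.val.re = 1 := by
    rw [QuadraticAlgebra.norm_def, him] at hnorm
    simpa using hnorm
  have hsq : σ ^ 2 = 1 := by
    apply Units.ext
    rw [pow_two, Units.val_mul, Units.val_one]
    apply QuadraticAlgebra.ext
    · rw [QuadraticAlgebra.re_mul, him, hre]
      simp
    · rw [QuadraticAlgebra.im_mul, him]
      simp
  obtain ⟨n, hn1⟩ : ∃ n : ℕ, n = 1 := ⟨1, rfl⟩
  obtain ⟨j, hj⟩ : ∃ j, 2 * n = j + 1 := ⟨2 * n - 1, by omega⟩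
  have hpos : 0 < fq q (2 * n) := by
    have h1 := (hg1 q hq).2.2.2.2.2.1 (2 * n)
    have h2 : (0 : ℤ) < ((2 * n : ℕ) : ℤ) := by exact_mod_cast (by omega : 0 < 2 * n)
    linarith
  -- the level
  obtain ⟨m, e, ⟨a, b, hab⟩, hm, h⟩ := A2N_key q G Λ Φ nG nL hex p σ hσ (fq q (2 * n)).toNat
  set k : ℕ := (fq q (2 * n)).toNat with hk
  have h3 : (thu q (ZMod (p ^ k)) ^ e) ^ 2 = 1 := by
    rw [← h, ← map_pow, hsq, map_one]
  have h4 : thu q (ZMod (p ^ k)) ^ (2 * n) = 1 := by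
    have h5 : ((thu q (ZMod (p ^ k))) ^ ((2 * n : ℕ) : ℤ)) =
        ((thu q (ZMod (p ^ k)) ^ e) ^ 2) ^ (a * n) *
        (thu q (ZMod (p ^ k)) ^ m) ^ (2 * n * b) := by
      rw [← zpow_natCast _ m, ← zpow_natCast _ 2, ← zpow_mul, ← zpow_mul, ← zpow_mul, ← zpow_add]
      congr 1
      push_cast
      linear_combination (-2 * (n : ℤ)) * hab
    rw [h3, hm, one_zpow, one_zpow, one_mul] at h5
    exact_mod_cast h5
  have h6 : (Qd.map q (Int.castRingHom (ZMod (p ^ k)))) ((thu q ℤ ^ (2 * n)).val) = 1 := by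
    rw [Units.val_pow_eq_pow_val, map_pow, thu_val, Qd.map_th, ← thu_val,
      ← Units.val_pow_eq_pow_val, h4, Units.val_one]
  have h7 := congrArg QuadraticAlgebra.im h6
  rw [hj, (hg1 q hq).1 j, ← hj, Qd.map_apply] at h7
  have h8 : ((fq q (2 * n) : ℤ) : ZMod (p ^ k)) = 0 := by simpa using h7
  rw [ZMod.intCast_zmod_eq_zero_iff_dvd] at h8
  have h9 := Int.le_of_dvd hpos h8
  have h10 : k < p ^ k := Nat.lt_pow_self hp.out.one_lt
  have h11 : (k : ℤ) = fq q (2 * n) := by rw [hk]; exact Int.toNat_of_nonneg hpos.le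
  have h12 : ((k : ℕ) : ℤ) < ((p ^ k : ℕ) : ℤ) := by exact_mod_cast h10
  omega




/-- among three exceptional values two are equal -/
private lemma A4N_two (Λ : Type) [Group Λ]
    (n : Λ →* Multiplicative ℤ) (K : Type) [Field K] [CharZero K] (hu : ¬ Good1 n K 3)
    (a b c : Kˣ) (ha : P1 n K a) (hb : P1 n K b) (hc : P1 n K c) (hab : a ≠ b) :
    c = a ∨ c = b := by
  by_contra hcon
  rw [not_or] at hcon
  apply hu
  refine ⟨![a, b, c], ?_, ?_⟩
  · intro i j hij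
    fin_cases i <;> fin_cases j <;> simp at hij ⊢
    · exact hab hij
    · exact hcon.1 hij.symm
    · exact hab hij.symm
    · exact hcon.2 hij.symm
    · exact hcon.1 hij
    · exact hcon.2 hij
  · intro i
    fin_cases i
    · exact ha
    · exact hb
    · exact hc

/-- two pairs of exceptional values have the same sum -/
private lemma A4N_sum (Λ : Type) [Group Λ]
    (n : Λ →* Multiplicative ℤ) (K : Type) [Field K] [CharZero K] (hu : ¬ Good1 n K 3)
    (a b c d : Kˣ) (ha : P1 n K a) (hb : P1 n K b) (hc : P1 n K c) (hd : P1 n K d)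
    (hab : a ≠ b) (hcd : c ≠ d) : a.val + b.val = c.val + d.val := by
  rcases A4N_two Λ n K hu a b c ha hb hc hab with h1 | h1 <;>
  rcases A4N_two Λ n K hu a b d ha hb hd hab with h2 | h2
  · exact absurd (h1.trans h2.symm) hcd
  · rw [h1, h2]
  · rw [h1, h2, add_comm]
  · exact absurd (h1.trans h2.symm) hcd

theorem p_A4A : S_A4A := by
  intro qq hqq Λ _ _ n hn hu σ hσ him
  -- the `p`-adic values
  have key : ∀ (p : ℕ) [Fact p.Prime], ∃ τ₁ τ₂ : (Fl p)ˣ, τ₁ ≠ τ₂ ∧ P1 n (Fl p) τ₁ ∧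
      P1 n (Fl p) τ₂ ∧ τ₁.val + τ₂.val = iz p (σ p).val.trace := by
    intro p _
    obtain ⟨j₁, j₂, h1, h2, -⟩ := pf_A3 (Fl p) ℤ_[p] (iz p) qq (by omega) (by omega)
    refine ⟨Units.map j₁.toMonoidHom (σ p), Units.map j₂.toMonoidHom (σ p), ?_,
      hσ p _ j₁, hσ p _ j₂, h2 _⟩
    intro h
    have h3 : j₁ (σ p).val = j₂ (σ p).val := congrArg Units.val h
    have h4 := h1 _ (sub_eq_zero.mpr h3)
    apply him p
    have h5 : (((σ p).val.im : ℤ_[p]) : ℚ_[p]) = 0 :=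
      (algebraMap ℚ_[p] (Fl p)).injective (by rw [map_zero]; exact h4)
    exact Subtype.ext h5
  -- the algebraic values
  have : Fact (Nat.Prime 2) := ⟨Nat.prime_two⟩
  obtain ⟨s₁, s₂, hs, hs1, hs2, -⟩ := key 2
  have hG2 : Good1 n (Fl 2) 2 := by
    refine ⟨![s₁, s₂], ?_, ?_⟩
    · intro i j hij
      fin_cases i <;> fin_cases j <;> simp at hij ⊢
      · exact hs hij
      · exact hs hij.symm
    · intro i
      fin_cases i
      · exact hs1
      · exact hs2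
  obtain ⟨t, ht1, ht2⟩ := ((all_q1 (Fl 2) Λ n 2 hn).1 hG2).2
  have ht : t 0 ≠ t 1 := fun h => by
    have := ht1 h
    simp at this
  obtain ⟨q, hq⟩ := pf_gal ((t 0).val + (t 1).val) (by
    intro g
    have h1 := pf_P1m pf_wm Λ n _ _ (g : AlgebraicClosure ℚ →+* AlgebraicClosure ℚ) _ (ht2 0)
    have h2 := pf_P1m pf_wm Λ n _ _ (g : AlgebraicClosure ℚ →+* AlgebraicClosure ℚ) _ (ht2 1)
    have h3 := A4N_sum Λ n _ (hu _) _ _ _ _ h1 h2 (ht2 0) (ht2 1) (by
      intro h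
      apply ht
      apply Units.ext
      exact g.injective (congrArg Units.val h)) ht
    rw [map_add]
    exact h3)
  -- comparison
  have halg : Algebra.IsAlgebraic ℚ (AlgebraicClosure ℚ) := by
    convert AlgebraicClosure.isAlgebraic ℚ
    · rfl
    · exact Subsingleton.elim _ _
  have hp : ∀ (p : ℕ) [Fact p.Prime], (q : ℚ_[p]) = (((σ p).val.trace : ℤ_[p]) : ℚ_[p]) := by
    intro p _
    obtain ⟨τ₁, τ₂, h0, h1, h2, h3⟩ := key p
    let ι : AlgebraicClosure ℚ →ₐ[ℚ] Fl p := IsAlgClosed.lift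
    have h4 := pf_P1m pf_wm Λ n _ _ (ι : AlgebraicClosure ℚ →+* Fl p) _ (ht2 0)
    have h5 := pf_P1m pf_wm Λ n _ _ (ι : AlgebraicClosure ℚ →+* Fl p) _ (ht2 1)
    have h6 := A4N_sum Λ n _ (hu _) _ _ _ _ h4 h5 h1 h2 (by
      intro h
      apply ht
      apply Units.ext
      exact (ι : AlgebraicClosure ℚ →+* Fl p).injective (congrArg Units.val h)) h0
    rw [h3] at h6
    have h7 : ι ((t 0).val + (t 1).val) = iz p (σ p).val.trace := by
      rw [map_add]
      exact h6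
    rw [hq, AlgHom.commutes] at h7
    apply (algebraMap ℚ_[p] (Fl p)).injective
    rw [map_ratCast]
    rw [eq_ratCast (algebraMap ℚ (Fl p))] at h7
    exact h7
  obtain ⟨a, ha⟩ := pf_int q (fun p _ => ⟨_, hp p⟩)
  refine ⟨a, ?_⟩
  intro p _
  have h8 := hp p
  rw [ha] at h8
  apply Subtype.ext
  rw [← h8]
  simp




private lemma A5N_thu (q : ℤ) {R S : Type} [CommRing R] [CommRing S] (f : R →+* S) :
    Units.map (Qd.map q f).toMonoidHom (thu q R) = thu q S := by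
  apply Units.ext
  exact Qd.map_th q f

private lemma A5N_trace (q : ℤ) (R : Type) [CommRing R] (e : ℤ) :
    (thu q R ^ e).val.trace = (((thu q ℤ ^ e).val.trace : ℤ) : R) := by
  rw [← A5N_thu q (Int.castRingHom R), ← map_zpow]
  exact ((pf_nc ℤ R (Int.castRingHom R)).1 q (thu q ℤ ^ e).val).2

/-- congruences for the trace -/
theorem p_A5A : S_A5A := by
  intro q G Λ _ _ Φ nG nL σ hσ a₀ ha M m _ _ e hEx hM
  rw [A5N_trace q]
  set T : ℤ := (thu q ℤ ^ e).val.trace with hT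
  rw [ZMod.intCast_eq_intCast_iff_dvd_sub, Int.natCast_dvd, Nat.dvd_iff_prime_pow_dvd_dvd]
  intro p k hp hpk
  have : Fact p.Prime := ⟨hp⟩
  rw [← Int.natCast_dvd, ← ZMod.intCast_eq_intCast_iff_dvd_sub]
  have h1 : thu q (ZMod (p ^ k)) ^ m = 1 := by
    rw [← A5N_thu q (ZMod.castHom hpk (ZMod (p ^ k))), ← map_pow, hM, map_one]
  have h2 := (hσ p).red k m e hEx h1
  have h3 : (Qd.map q (PadicInt.toZModPow k) (σ p).val).trace =
      (thu q (ZMod (p ^ k)) ^ e).val.trace := by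
    rw [← h2]; rfl
  rw [((pf_nc _ _ (PadicInt.toZModPow k)).1 q (σ p).val).2, ← ha p, map_intCast,
    A5N_trace q] at h3
  exact h3


end Pool.Agent.F8.NG.A
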