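import Pool.Agent.Lib.MP_305fdd_al.F8.NG.A.Stm
import Pool.Agent.Lib.MP_305fdd_al.F8.MainPT

/-!
# MP_305fdd_al, hyperbolic monodromies: existence of the exceptional value
-/

set_option autoImplicit false

namespace Pool.Agent.F8.NG.A

open Pool.Agent.MP_305fdd_al Pool.Agent.Lib.MP_305fdd_al Pool.Agent.F2X Pool.Agent.F8
  Pool.Agent.F8.HN
open scoped QuadraticAlgebra



private lemma A1N_ext (q : ℤ) (p : ℕ) [Fact p.Prime] (x y : Qd q ℤ_[p])
    (h : ∀ k, Qd.map q (PadicInt.toZModPow k) x = Qd.map q (PadicInt.toZModPow k) y) : x = y := by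
  apply QuadraticAlgebra.ext
  · rw [← PadicInt.ext_of_toZModPow]
    intro k
    exact congrArg QuadraticAlgebra.re (h k)
  · rw [← PadicInt.ext_of_toZModPow]
    intro k
    exact congrArg QuadraticAlgebra.im (h k)

theorem p_A1A (hTA : S_TA) : S_A1A := by
  intro α q hαq Λ _ Φ nL hnL hex p _
  obtain ⟨TT, gT, hT, D, hD0, hnat, hTT⟩ := hTA α q hαq
  have hscal : ∀ (k m : ℕ) [NeZero m] (e : ℤ), ExG Φ (nA α) nL m e →
      thu q (ZMod (p ^ k)) ^ m = 1 →
      Q2.tH.comp (Φ.toFun _ (TT (ZMod (p ^ k)))) = (pw (thu q (ZMod (p ^ k)) ^ e)).comp nL := by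
    intro k m _ e hEx hk
    rw [← Φ.nat, (hTT _).1]
    exact p_euG (GA α) Λ Φ (nA α) nL m e hEx _ _ hk
  have hl := pf_lq q ℤ_[p] _ _ _ (pf_lz p)
  obtain ⟨Θ, hΘ⟩ := pf_lh (Qd q ℤ_[p]) (fun k => Qd q (ZMod (p ^ k))) _ _ hl Λ
    (fun k => Φ.toFun _ (TT (ZMod (p ^ k)))) (by
      intro k
      rw [← Φ.nat, hnat _ _ (tz p k)])
  have hΘ' : ∀ k l, Q2.map (Qd.map q (PadicInt.toZModPow k)) (Θ l) =
      Φ.toFun _ (TT (ZMod (p ^ k))) l := fun k l => DFunLike.congr_fun (hΘ k) l
  -- the matrix part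
  have hm : ∀ l, (Θ l).m = 1 := by
    intro l
    apply Subtype.ext
    ext1 i j
    apply A1N_ext q p
    intro k
    have h1 : SLm (Qd.map q (PadicInt.toZModPow k)) (Θ l).m = 1 := by
      have h2 : SLm (Qd.map q (PadicInt.toZModPow k)) (Θ l).m =
          (Q2.mH.comp (Φ.toFun _ (TT (ZMod (p ^ k))))) l := by
        rw [MonoidHom.comp_apply, ← hΘ' k l]
        rfl
      rw [h2, ← Φ.nat, (hTT _).2.1, NatBij.one]
      rfl
    have h3 := congrArg (fun M : SL2 (Qd q (ZMod (p ^ k))) => M.val i j) h1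
    have h4 : (SLm (Qd.map q (PadicInt.toZModPow k)) (1 : SL2 (Qd q ℤ_[p]))).val i j =
        (1 : SL2 (Qd q (ZMod (p ^ k)))).val i j := by rw [map_one]
    exact h3.trans h4.symm
  -- the scalar part
  obtain ⟨l₀, hl₀⟩ := hnL (Multiplicative.ofAdd 1)
  have hred : ∀ (k : ℕ) (l : Λ), Units.map (Qd.map q (PadicInt.toZModPow k)).toMonoidHom (Θ l).t =
      (Q2.tH.comp (Φ.toFun _ (TT (ZMod (p ^ k))))) l := by
    intro k l
    rw [MonoidHom.comp_apply, ← hΘ' k l]
    rfl
  have hσ : ∀ l, (Θ l).t = pw (Θ l₀).t (nL l) := by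
    intro l
    apply Units.ext
    apply A1N_ext q p
    intro k
    have hNZ : NeZero (Nat.card (Qd q (ZMod (p ^ k)))ˣ) := ⟨Nat.card_pos.ne'⟩
    obtain ⟨e, hEx, -⟩ := hex (Nat.card (Qd q (ZMod (p ^ k)))ˣ)
    have hs := hscal k _ e hEx pow_card_eq_one'
    have h1 : Units.map (Qd.map q (PadicInt.toZModPow k)).toMonoidHom (Θ l).t =
        Units.map (Qd.map q (PadicInt.toZModPow k)).toMonoidHom (pw (Θ l₀).t (nL l)) := by
      rw [hred k l, zpowersHom_apply, map_zpow, hred k l₀, hs, MonoidHom.comp_apply,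
        MonoidHom.comp_apply, hl₀, pw_ofAdd, zpow_one, zpowersHom_apply]
    exact congrArg Units.val h1
  refine ⟨(Θ l₀).t, ?_, ?_⟩
  · intro K _ _ j
    refine ⟨(Q2.map j).comp Θ, ?_, ?_, ?_⟩
    · ext1 l
      change Units.map j.toMonoidHom (Θ l).t =
        zpowersHom _ (Units.map j.toMonoidHom (Θ l₀).t) (nL l)
      rw [hσ l, zpowersHom_apply, zpowersHom_apply, map_zpow]
    · ext1 l
      change SLm j (Θ l).m = 1
      rw [hm, map_one]
    ·       -- a power of `p` larger than `|D|`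
      have hp2 : 1 < p := (Fact.out (p := p.Prime)).one_lt
      have hk : D.natAbs < p ^ D.natAbs := Nat.lt_pow_self hp2
      set k : ℕ := D.natAbs with hkdef
      obtain ⟨l, hl, -⟩ := (pf_mp (GA α) Λ Φ _ _ (TT (ZMod (p ^ k))) (TT (ZMod (p ^ k)))).1
        gT
      obtain ⟨l', hl', -⟩ := (pf_mp (GA α) Λ Φ _ _ (TT (ZMod (p ^ k))) (TT (ZMod (p ^ k)))).1
        hT
      have h5 : Qd.map q (PadicInt.toZModPow k) (Q2.W (Θ l) (Θ l') 0) =
          Q2.W (TT (ZMod (p ^ k)) gT) (TT (ZMod (p ^ k)) hT) 0 := by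
        rw [← pf_wm, hΘ', hΘ', hl, hl']
      have h6 : (Q2.W (Θ l) (Θ l') 0).norm ≠ 0 := by
        intro h0
        have h7 := ((pf_nc _ _ (PadicInt.toZModPow (p := p) k)).1 q (Q2.W (Θ l) (Θ l') 0)).1
        rw [h5, h0, map_zero, (hTT _).2.2] at h7
        rw [ZMod.intCast_zmod_eq_zero_iff_dvd] at h7
        have h8 := Int.natAbs_dvd_natAbs.mpr h7
        rw [Int.natAbs_natCast] at h8
        have h9 := Nat.le_of_dvd (Int.natAbs_pos.mpr hD0) h8
        omega
      refine ⟨l, l', ?_⟩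
      intro h8
      apply (pf_nz p K).1 q j _ h6
      have h9 := congrFun h8 0
      rw [MonoidHom.comp_apply, MonoidHom.comp_apply, pf_wm, Pi.zero_apply] at h9
      exact h9
  · intro k m _ e hEx hk
    rw [hred k l₀, hscal k m e hEx hk, MonoidHom.comp_apply, hl₀, pw_ofAdd, zpow_one]

/-! ### The tautological representation -/

section TA

variable (α : MulAut F) (q : ℤ) (R : Type) [CommRing R]

/-- the eigenvector `(r, θ - p)` -/
def lam (w : F) : Qd q R :=
  (((AM α).val 1 0 * vec w 0 : ℤ) : Qd q R) +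
    (th q R - (((AM α).val 0 0 : ℤ) : Qd q R)) * ((vec w 1 : ℤ) : Qd q R)

theorem lam_mul (v w : F) : lam α q R (v * w) = lam α q R v + lam α q R w := by
  unfold lam
  rw [vec_mul, Pi.add_apply, Pi.add_apply]
  push_cast
  ring

theorem lam_one : lam α q R 1 = 0 := by
  unfold lam
  simp

theorem lam_al (h : Hq α q) (w : F) : lam α q R (α w) = th q R * lam α q R w := by
  have hd := h.det
  have ht := h.tr
  rw [Matrix.det_fin_two] at hd
  rw [Matrix.trace_fin_two] at ht
  have h0 : vec (α w) 0 = (AM α).val 0 0 * vec w 0 + (AM α).val 0 1 * vec w 1 := by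
    rw [AM_vec, Matrix.mulVec, dotProduct, Fin.sum_univ_two]
  have h1 : vec (α w) 1 = (AM α).val 1 0 * vec w 0 + (AM α).val 1 1 * vec w 1 := by
    rw [AM_vec, Matrix.mulVec, dotProduct, Fin.sum_univ_two]
  have hs := th_sq q R
  have hd' := congrArg (fun z : ℤ => (z : Qd q R)) hd
  have ht' := congrArg (fun z : ℤ => (z : Qd q R)) ht
  push_cast at hd' ht'
  unfold lam
  rw [h0, h1]
  push_cast
  generalize ((AM α).val 0 0 : Qd q R) = a at *
  generalize ((AM α).val 0 1 : Qd q R) = b at *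
  generalize ((AM α).val 1 0 : Qd q R) = c at *
  generalize ((AM α).val 1 1 : Qd q R) = d at *
  generalize (vec w 0 : Qd q R) = x at *
  generalize (vec w 1 : Qd q R) = y at *
  linear_combination (-y) * hd' + (th q R * y) * ht' - y * hs

/-- on `F` -/
def TAF : F →* Q2 (Qd q R) where
  toFun w := ⟨1, 1, ![lam α q R w, 0]⟩
  map_one' := by
    rw [lam_one]
    apply Q2.ext
    · rfl
    · rfl
    · refine funext fun i => ?_
      fin_cases i <;> rfl
  map_mul' v w := by
    rw [lam_mul]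
    apply Q2.ext
    · simp
    · simp
    · refine funext fun i => ?_
      fin_cases i <;> simp

/-- the affine representation -/
def TA (h : Hq α q) : GA α →* Q2 (Qd q R) :=
  liftA (TAF α q R) ⟨thu q R, 1, 0⟩ (by
    intro w
    rw [eq_mul_inv_iff_mul_eq]
    apply Q2.ext
    · show (1 : (Qd q R)ˣ) * thu q R = thu q R * 1
      rw [one_mul, mul_one]
    · show (1 : SL2 (Qd q R)) * 1 = 1 * 1
      rfl
    · show ((⟨1, 1, ![lam α q R (α w), 0]⟩ : Q2 (Qd q R)) * ⟨thu q R, 1, 0⟩).v =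
        ((⟨thu q R, 1, 0⟩ : Q2 (Qd q R)) * ⟨1, 1, ![lam α q R w, 0]⟩).v
      rw [Q2.mul_v, Q2.mul_v, lam_al α q R h]
      refine funext fun i => ?_
      fin_cases i <;> simp [thu_val])

theorem TA_iA (h : Hq α q) (w : F) : TA α q R h (iA α w) = ⟨1, 1, ![lam α q R w, 0]⟩ :=
  liftA_iA _ _ _ _
theorem TA_tA (h : Hq α q) : TA α q R h (tA α) = ⟨thu q R, 1, 0⟩ := liftA_tA _ _ _

end TA

theorem map_lam (α : MulAut F) (q : ℤ) {R S : Type} [CommRing R] [CommRing S] (f : R →+* S)
    (w : F) : Qd.map q f (lam α q R w) = lam α q S w := by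
  unfold lam
  rw [map_add, map_mul, map_sub, map_intCast, map_intCast, map_intCast, Qd.map_th]

/-- the lower left entry of a hyperbolic matrix is not zero -/
theorem Hq.ne {α : MulAut F} {q : ℤ} (h : Hq α q) : (AM α).val 1 0 ≠ 0 := by
  intro h0
  have hd := h.det
  have ht := h.tr
  have h2 := h.two
  rw [Matrix.det_fin_two, h0, mul_zero, sub_zero] at hd
  rw [Matrix.trace_fin_two] at ht
  rcases Int.mul_eq_one_iff_eq_one_or_neg_one.1 hd with ⟨h3, h4⟩ | ⟨h3, h4⟩ <;> omega

theorem p_TA : S_TA := by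
  intro α q h
  refine ⟨fun R _ => TA α q R h, tA α, iA α ga, (2 - q) * (2 - q) * ((AM α).val 1 0 *
    (AM α).val 1 0), ?_, ?_, ?_⟩
  · have := h.two
    exact mul_ne_zero (mul_ne_zero (by omega) (by omega)) (mul_ne_zero h.ne h.ne)
  · intro R S _ _ f
    apply NG.homA_ext
    · intro w
      show Q2.map (Qd.map q f) (TA α q R h (iA α w)) = TA α q S h (iA α w)
      rw [TA_iA, TA_iA]
      apply Q2.ext
      · show Units.map (Qd.map q f).toMonoidHom 1 = 1
        rw [map_one]
      · show SLm (Qd.map q f) 1 = 1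
        rw [map_one]
      · refine funext fun i => ?_
        fin_cases i
        · exact map_lam α q f w
        · exact map_zero _
    · show Q2.map (Qd.map q f) (TA α q R h (tA α)) = TA α q S h (tA α)
      rw [TA_tA, TA_tA]
      apply Q2.ext
      · apply Units.ext
        exact Qd.map_th q f
      · show SLm (Qd.map q f) 1 = 1
        rw [map_one]
      · refine funext fun i => ?_
        exact map_zero _
  · intro R _
    refine ⟨?_, ?_, ?_⟩
    · apply NG.homA_ext
      · intro w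
        show (TA α q R h (iA α w)).t = pw (thu q R) (nA α (iA α w))
        rw [TA_iA, nA_iA, map_one]
      · show (TA α q R h (tA α)).t = pw (thu q R) (nA α (tA α))
        rw [TA_tA, nA_tA, pw_ofAdd, zpow_one]
    · apply NG.homA_ext
      · intro w
        show (TA α q R h (iA α w)).m = 1
        rw [TA_iA]
      · show (TA α q R h (tA α)).m = 1
        rw [TA_tA]
    · rw [TA_tA, TA_iA]
      have e : Q2.W (⟨thu q R, 1, 0⟩ : Q2 (Qd q R)) ⟨1, 1, ![lam α q R ga, 0]⟩ 0 =
          (th q R - 1) * (th q R - 1) * (((AM α).val 1 0 : ℤ) : Qd q R) := by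
        simp [Q2.W, Q2.X, Matrix.det_fin_two, thu_val, lam]
      rw [e, map_mul, map_mul, QuadraticAlgebra.norm_intCast]
      have e2 : (th q R - 1).norm = (2 - q : R) := by
        rw [QuadraticAlgebra.norm_def]
        simp [th]
        ring
      rw [e2]
      push_cast
      ring

end Pool.Agent.F8.NG.A
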