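import Pool.Agent.Lib.MP_305fdd_al.F8.NG.A.Stm
import Pool.Agent.Lib.MP_305fdd_al.F8.MainPT
import Pool.Agent.Lib.MP_305fdd_al.F8.FinalN

/-!
# MP_305fdd_al, hyperbolic monodromies: main result
-/

set_option autoImplicit false

namespace Pool.Agent.F8.NG.A

open Pool.Agent.MP_305fdd_al Pool.Agent.Lib.MP_305fdd_al Pool.Agent.F2X Pool.Agent.F8
  Pool.Agent.F8.HN
open scoped QuadraticAlgebra



private theorem NA_congr {Λ : Type} [Group Λ] (n : Λ →* Multiplicative ℤ) (m : ℕ) {e e' : ℤ}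
    (h : (m : ℤ) ∣ e - e') :
    (redZ m).comp ((zpowGroupHom e).comp n) = (redZ m).comp ((zpowGroupHom e').comp n) := by
  have h1 : (e : ZMod m) = (e' : ZMod m) := by
    rw [← sub_eq_zero, ← Int.cast_sub, ZMod.intCast_zmod_eq_zero_iff_dvd]
    exact h
  apply MonoidHom.ext
  intro l
  apply Multiplicative.toAdd.injective
  show Multiplicative.toAdd (redZ m ((n l) ^ e)) = Multiplicative.toAdd (redZ m ((n l) ^ e'))
  rw [map_zpow (redZ m) (n l) e, map_zpow (redZ m) (n l) e', toAdd_zpow, toAdd_zpow, zsmul_eq_mul,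
    zsmul_eq_mul, h1]

private theorem NA_one {Λ : Type} [Group Λ] (n : Λ →* Multiplicative ℤ) :
    (zpowGroupHom (1 : ℤ)).comp n = n := by
  apply MonoidHom.ext
  intro l
  show (n l) ^ (1 : ℤ) = n l
  rw [zpow_one]

theorem p_NAG (habA : S_abA) (hu1A : S_u1A) (hA1A : S_A1A) (hA2A : S_A2A) (hA4A : S_A4A)
    (hA5A : S_A5A) (hA6A : S_A6A) : AB.S_NAG := by
  intro α hα Λ _ hfgΛ _ hs Φ
  obtain ⟨q, hq⟩ : ∃ q, Hq α q := ⟨(AM α).val.trace, hα.1, rfl, hα.2⟩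
  have hfg : Group.FG (GA α) := (OV.p_fin α).1
  have hab := habA α q hq
  obtain ⟨n₀, hn₀⟩ := p_aLN (GA α) Λ hs (nA α) hab
  have hex : ∀ (m : ℕ) [NeZero m], ∃ e : ℤ, ExG Φ (nA α) n₀ m e ∧ IsCoprime e (m : ℤ) :=
    fun m _ => p_exG (GA α) Λ Φ (nA α) n₀ hab.1 hn₀ m
  have he : ∀ m : ℕ, ∃ e : ℤ, ∀ _ : NeZero m, ExG Φ (nA α) n₀ m e ∧ IsCoprime e (m : ℤ) := by
    intro m
    by_cases hm : m = 0
    · exact ⟨1, fun h => absurd hm h.out⟩
    · have : NeZero m := ⟨hm⟩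
      obtain ⟨e, h1, h2⟩ := hex m
      exact ⟨e, fun _ => ⟨h1, h2⟩⟩
  choose e he using he
  have hσ : ∀ (p : ℕ) [Fact p.Prime], ∃ σ : (Qd q ℤ_[p])ˣ, SigA q Φ (nA α) n₀ p σ :=
    fun p _ => hA1A α q hq Λ Φ n₀ hn₀.1 hex p
  choose σ hσ using hσ
  obtain ⟨a₀, ha₀⟩ := hA4A q hq.two Λ n₀ hn₀.1 (hu1A α q hq Λ Φ n₀ hn₀.1 hex) (fun p _ => σ p)
    (fun p _ => (hσ p).exc) (fun p _ => (hA2A q hq.two (GA α) Λ Φ (nA α) n₀ hex p (σ p) (hσ p)).2)
  have hnz : ∀ m : ℕ, 0 < m → NeZero m := fun m hm => ⟨hm.ne'⟩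
  rcases hA6A q hq.two a₀ e (fun m hm => (he m (hnz m hm)).2)
    (fun m m' hm hm' hd => by
      have := hnz m hm
      have := hnz m' hm'
      exact p_edG (GA α) Λ Φ (nA α) n₀ hn₀.1 m m' (e m) (e m') hd (he m inferInstance).1
        (he m' inferInstance).1)
    (fun M m hM hm ht => by
      have := hnz m hm
      have := hnz M hM
      exact hA5A q (GA α) Λ Φ (nA α) n₀ (fun p _ => σ p) (fun p _ => hσ p) a₀ ha₀ M m (e m)
        (he m inferInstance).1 ht) with h | h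
  · refine ⟨n₀, hn₀.1, ?_, fun f => abF_ker hn₀ f⟩
    intro m hm
    have h1 := (he m hm).1
    have h2 := h m (Nat.pos_of_ne_zero hm.out)
    unfold ExG at h1
    rw [h1, NA_congr n₀ m h2, NA_one]
  · have hab' : IsAbF ((zpowGroupHom (-1)).comp n₀) := by
      refine ⟨?_, ?_⟩
      · intro x
        obtain ⟨l, hl⟩ := hn₀.1 (x ^ (-1 : ℤ))
        refine ⟨l, ?_⟩
        show (n₀ l) ^ (-1 : ℤ) = x
        rw [hl, zpow_neg_one, zpow_neg_one, inv_inv]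
      · obtain ⟨E, hE, h1⟩ := hn₀.2
        refine ⟨E, hE, fun A _ f x hx => h1 A f x ?_⟩
        have h2 : (n₀ x) ^ (-1 : ℤ) = 1 := hx
        rwa [zpow_neg_one, inv_eq_one] at h2
    refine ⟨_, hab'.1, ?_, fun f => abF_ker hab' f⟩
    · intro m hm
      have h1 := (he m hm).1
      have h2 := h m (Nat.pos_of_ne_zero hm.out)
      unfold ExG at h1
      rw [h1]
      exact NA_congr n₀ m (by rw [sub_neg_eq_add]; exact h2)


end Pool.Agent.F8.NG.A
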