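import Pool.Agent.Lib.MP_305fdd_al.F8.NG.A.Stm

/-!
# MP_305fdd_al, hyperbolic monodromies: arithmetic of the sequence fq
-/

set_option autoImplicit false

namespace Pool.Agent.F8.NG.A

open Pool.Agent.MP_305fdd_al Pool.Agent.Lib.MP_305fdd_al Pool.Agent.F2X Pool.Agent.F8
  Pool.Agent.F8.HN
open scoped QuadraticAlgebra



theorem f1_pow (q : ℤ) (j : ℕ) : (thu q ℤ ^ (j + 1)).val = ⟨-fq q j, fq q (j + 1)⟩ := by
  induction j with
  | zero => simp [thu, th, fq]
  | succ j ih =>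
    rw [pow_succ, Units.val_mul, ih, thu_val]
    have h : fq q (j + 1 + 1) = q * fq q (j + 1) - fq q j := rfl
    rw [h]
    ext
    · simp [th]
    · simp [th]; ring

theorem f1_norm (q : ℤ) (j : ℕ) : fq q (j + 1) * fq q (j + 1) - q * fq q (j + 1) * fq q j + fq q j * fq q j = 1 := by
  induction j with
  | zero => simp [fq]
  | succ j ih =>
    have h : fq q (j + 1 + 1) = q * fq q (j + 1) - fq q j := rfl
    rw [h]
    linear_combination ih

theorem f1_LL (q : ℤ) (j : ℕ) : Lq q ((j : ℤ) + 1) = q * fq q (j + 1) - 2 * fq q j := by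
  have h := f1_pow q j
  unfold Lq
  have h2 : thu q ℤ ^ ((j : ℤ) + 1) = thu q ℤ ^ (j + 1) := by
    rw [← Nat.cast_succ, zpow_natCast]
  rw [h2, h]
  simp [QuadraticAlgebra.trace]
  ring

theorem f1_lt (q : ℤ) (hq : 2 < q) (j : ℕ) : 0 ≤ fq q j ∧ fq q j < fq q (j + 1) := by
  induction j with
  | zero => simp [fq]
  | succ j ih =>
    have h : fq q (j + 1 + 1) = q * fq q (j + 1) - fq q j := rfl
    rw [h]
    have h3 : 0 ≤ (q - 3) * fq q (j + 1) := mul_nonneg (by omega) (by linarith [ih.1, ih.2])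
    constructor <;> linarith [ih.1, ih.2]

theorem f1_norm1 (q : ℤ) (e : ℤ) : QuadraticAlgebra.norm (thu q ℤ ^ e).val = 1 := by
  have h1 : Units.map (QuadraticAlgebra.norm (R := ℤ) (a := -1) (b := ((q : ℤ) : ℤ)))
      (thu q ℤ) = 1 := by
    ext
    simp [thu, th, QuadraticAlgebra.norm_def]
  have h2 : Units.map (QuadraticAlgebra.norm (R := ℤ) (a := -1) (b := ((q : ℤ) : ℤ)))
      (thu q ℤ ^ e) = 1 := by
    rw [map_zpow, h1, one_zpow]
  exact congrArg Units.val h2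

theorem f1_inv (q : ℤ) (u : (Qd q ℤ)ˣ) (hu : QuadraticAlgebra.norm u.val = 1) :
    (u⁻¹).val = star u.val := by
  have h := QuadraticAlgebra.algebraMap_norm_eq_mul_star u.val
  rw [hu, map_one] at h
  calc (u⁻¹).val = (u⁻¹).val * (u.val * star u.val) := by rw [← h, mul_one]
    _ = star u.val := by rw [← mul_assoc, Units.inv_mul, one_mul]

theorem p_g1 : S_g1 := by
  intro q hq
  refine ⟨f1_pow q, f1_norm q, f1_LL q, ?_, fun j => (f1_lt q hq j).2, ?_, ?_, ?_, ?_⟩
  · intro e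
    unfold Lq
    rw [zpow_neg, f1_inv q _ (f1_norm1 q e), QuadraticAlgebra.trace_def, QuadraticAlgebra.trace_def,
      QuadraticAlgebra.re_star, QuadraticAlgebra.im_star]
    simp
    ring
  · intro j
    induction j with
    | zero => simp [fq]
    | succ j ih =>
      have := (f1_lt q hq j).2
      push_cast
      linarith
  · intro j
    have h0 := f1_LL q j
    rcases Nat.eq_zero_or_pos j with rfl | hj
    · norm_num at h0 ⊢
      rw [h0]
      simpa [Lq, fq, QuadraticAlgebra.trace] using hq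
    · obtain ⟨i, rfl⟩ : ∃ i, j = i + 1 := ⟨j - 1, by omega⟩
      have h1 := f1_LL q i
      have h2 := f1_LL q (i + 1)
      have h3 : fq q (i + 1 + 1) = q * fq q (i + 1) - fq q i := rfl
      push_cast at h1 h2 ⊢
      rw [h1, h2, h3]
      have h4 := f1_lt q hq i
      have h5 : 0 < (q - 2) * ((q + 1) * fq q (i + 1) - fq q i) := by
        apply mul_pos (by omega)
        have h6 : 0 < q * fq q (i + 1) := mul_pos (by omega) (by linarith [h4.1, h4.2])
        linarith [h4.1, h4.2]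
      linarith
  · intro j
    rcases Nat.eq_zero_or_pos j with rfl | hj
    · simp [Lq, QuadraticAlgebra.trace]
    · obtain ⟨i, rfl⟩ : ∃ i, j = i + 1 := ⟨j - 1, by omega⟩
      have h1 := f1_LL q i
      push_cast at h1 ⊢
      rw [h1]
      have h4 := f1_lt q hq i
      have h6 : 0 < (q - 2) * fq q (i + 1) := mul_pos (by omega) (by linarith [h4.1, h4.2])
      linarith [h4.1, h4.2]
  · intro j
    rw [f1_LL]
    have h : fq q (j + 2) = q * fq q (j + 1) - fq q j := rfl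
    rw [h]; ring




theorem p_g2 (hg1 : S_g1) : S_g2 := by
  intro q hq j M hj hM
  obtain ⟨h1, h2, -⟩ := hg1 q hq
  obtain ⟨i, rfl⟩ := Nat.exists_eq_add_of_le' hj
  have h0 : ((fq q (i + 1) : ℤ) : ZMod M) = 0 := by
    rw [← hM]; simp
  have hu : (thu q (ZMod M)).val = Qd.map q (Int.castRingHom (ZMod M)) (thu q ℤ).val :=
    (Qd.map_th q (Int.castRingHom (ZMod M))).symm
  have h3 : (thu q (ZMod M) ^ (i + 1)).val = ⟨-((fq q i : ℤ) : ZMod M), 0⟩ := by
    rw [Units.val_pow_eq_pow_val, hu, ← map_pow, ← Units.val_pow_eq_pow_val, h1, Qd.map_apply]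
    ext
    · simp
    · simpa using h0
  have h4 : ((fq q i : ℤ) : ZMod M) * ((fq q i : ℤ) : ZMod M) = 1 := by
    have := congrArg (fun z : ℤ => (z : ZMod M)) (h2 i)
    simp only [Int.cast_add, Int.cast_sub, Int.cast_mul, h0] at this
    simpa using this
  apply Units.ext
  rw [two_mul, pow_add, Units.val_mul, h3, Units.val_one]
  ext
  · simp [h4]
  · simp




private theorem f3N_thu (q : ℤ) (M : ℕ) :
    thu q (ZMod M) = Units.map (Qd.map q (Int.castRingHom (ZMod M))).toMonoidHom (thu q ℤ) := by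
  apply Units.ext
  show th q (ZMod M) = Qd.map q (Int.castRingHom (ZMod M)) (th q ℤ)
  rw [Qd.map_th]

private theorem f3N_trace (q : ℤ) (M : ℕ) (e : ℤ) :
    (thu q (ZMod M) ^ e).val.trace = (Lq q e : ZMod M) := by
  rw [f3N_thu, ← map_zpow]
  show (Qd.map q (Int.castRingHom (ZMod M)) (thu q ℤ ^ e).val).trace = _
  rw [Qd.map_apply]
  unfold Lq
  rw [QuadraticAlgebra.trace_def, QuadraticAlgebra.trace_def]
  simp

private theorem f3N_per {G : Type} [Group G] (x : G) (n : ℕ) (h : x ^ n = 1) (e k : ℤ)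
    (hd : (n : ℤ) ∣ e - k) : x ^ e = x ^ k := by
  obtain ⟨c, hc⟩ := hd
  have : e = k + (n : ℤ) * c := by linarith
  rw [this, zpow_add, zpow_mul, zpow_natCast, h, one_zpow, mul_one]

theorem p_g3 (hg1 : S_g1) (hg2 : S_g2) : S_g3 := by
  intro q hq j M e hj hM hnd
  have hper : thu q (ZMod M) ^ (2 * j) = 1 := hg2 q hq j M (by omega) hM
  have hLL := (hg1 q hq).2.2.2.1
  have hpos : (0 : ℤ) < 2 * j := by omega
  have hr0 := Int.emod_nonneg e (ne_of_gt hpos)
  have hr1 := Int.emod_lt_of_pos e hpos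
  have hdiv : (2 * j : ℤ) ∣ e - e % (2 * j) := Int.dvd_self_sub_emod
  -- the choice of the representative
  have main : ∃ k : ℕ, (k : ℤ) ≤ j ∧ ((2 * j : ℤ) ∣ e - k ∨ (2 * j : ℤ) ∣ e + k) := by
    rcases le_or_gt (e % (2 * j)) j with h | h
    · refine ⟨(e % (2 * j)).toNat, ?_, Or.inl ?_⟩
      · rw [Int.toNat_of_nonneg hr0]; exact h
      · rw [Int.toNat_of_nonneg hr0]; exact hdiv
    · refine ⟨(2 * j - e % (2 * j)).toNat, ?_, Or.inr ?_⟩
      · rw [Int.toNat_of_nonneg (by linarith)]; linarith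
      · rw [Int.toNat_of_nonneg (by linarith)]
        have : e + (2 * j - e % (2 * j)) = (e - e % (2 * j)) + 2 * j := by ring
        rw [this]
        exact dvd_add hdiv dvd_rfl
  obtain ⟨k, hk, hd⟩ := main
  have hnk : ¬ (j : ℤ) ∣ (k : ℤ) := by
    intro hjk
    apply hnd
    have h2j : (j : ℤ) ∣ 2 * j := Dvd.intro_left _ rfl
    rcases hd with h | h
    · have := dvd_add (h2j.trans h) hjk
      rwa [sub_add_cancel] at this
    · have := dvd_sub (h2j.trans h) hjk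
      rwa [add_sub_cancel_right] at this
  have hk0 : 0 < k := by
    rcases Nat.eq_zero_or_pos k with h | h
    · exact absurd (by rw [h]; exact dvd_zero _) hnk
    · exact h
  have hkj : k < j := by
    have h1 : k ≤ j := by exact_mod_cast hk
    rcases Nat.lt_or_ge k j with h | h
    · exact h
    · exact absurd (by rw [le_antisymm h1 h]) hnk
  refine ⟨k, hk0, hkj, hd, ?_⟩
  rcases hd with h | h
  · rw [f3N_per _ (2 * j) hper e k (by push_cast; exact h), f3N_trace]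
  · rw [f3N_per _ (2 * j) hper e (-(k : ℤ)) (by push_cast; rw [sub_neg_eq_add]; exact h),
      f3N_trace, hLL]




/-- one modulus: `Lq q k = a₀` -/
private theorem A6N_one (hg1 : S_g1) (hg2 : S_g2) (hg3 : S_g3) (q : ℤ) (hq : 2 < q) (n : ℕ)
    (_hn : 1 ≤ n) (a₀ : ℤ)
    (e : ℕ → ℤ) (hcop : ∀ m : ℕ, 0 < m → IsCoprime (e m) (m : ℤ))
    (htr : ∀ M m : ℕ, 0 < M → 0 < m → thu q (ZMod M) ^ m = 1 →
      (a₀ : ZMod M) = (thu q (ZMod M) ^ ((n : ℤ) * e m)).val.trace)
    (i : ℕ) (hi : |a₀| < fq q i) (hni : n < i + 2) :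
    ∃ k : ℕ, 0 < k ∧
      ((2 * ((i + 2 : ℕ) : ℤ)) ∣ n * e (2 * (i + 2)) - k ∨
        (2 * ((i + 2 : ℕ) : ℤ)) ∣ n * e (2 * (i + 2)) + k) ∧ Lq q k = a₀ := by
  obtain ⟨-, -, -, -, hmono, hge, hLmono, hLpos, hLf⟩ := hg1 q hq
  have hM : ((fq q (i + 2)).toNat : ℤ) = fq q (i + 2) := by
    apply Int.toNat_of_nonneg
    have := hge (i + 2)
    have h0 : (0 : ℤ) ≤ ((i + 2 : ℕ) : ℤ) := Int.natCast_nonneg _
    omega
  have hMpos : 0 < (fq q (i + 2)).toNat := by
    have := hge (i + 2)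
    push_cast at this
    omega
  have h1 : thu q (ZMod (fq q (i + 2)).toNat) ^ (2 * (i + 2)) = 1 := hg2 q hq (i + 2) _ (by omega) hM
  have hc := hcop (2 * (i + 2)) (by omega)
  have hnd : ¬ ((i + 2 : ℕ) : ℤ) ∣ (n : ℤ) * e (2 * (i + 2)) := by
    intro h
    have h2 : IsCoprime ((i + 2 : ℕ) : ℤ) (e (2 * (i + 2))) := by
      refine (hc.of_isCoprime_of_dvd_right ?_).symm
      push_cast
      exact Dvd.intro_left _ rfl
    have h3 := h2.dvd_of_dvd_mul_right h
    have h4 : i + 2 ∣ n := by exact_mod_cast h3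
    have := Nat.le_of_dvd (by omega) h4
    omega
  obtain ⟨k, hk0, hkj, hkd, hkt⟩ := hg3 q hq (i + 2) _ ((n : ℤ) * e (2 * (i + 2))) (by omega) hM hnd
  refine ⟨k, hk0, hkd, ?_⟩
  have h2 := htr _ (2 * (i + 2)) hMpos (by omega) h1
  rw [hkt, ZMod.intCast_eq_intCast_iff_dvd_sub, hM] at h2
  have hst : StrictMono fun n : ℕ => Lq q (n : ℤ) := by
    refine strictMono_nat_of_lt_succ fun n => ?_
    have := hLmono n
    push_cast
    exact this
  have hle : Lq q (k : ℤ) ≤ Lq q ((i : ℤ) + 1) := by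
    have hki : k ≤ i + 1 := by omega
    have := hst.monotone hki
    push_cast at this
    exact this
  have hpos := hLpos k
  rw [hLf i] at hle
  have hi1 := hmono i
  have hi2 := hmono (i + 1)
  rw [abs_lt] at hi
  have hz : Lq q (k : ℤ) - a₀ = 0 := by
    refine Int.eq_zero_of_abs_lt_dvd h2 ?_
    rw [abs_lt]
    constructor
    · have : fq q (i + 1) < fq q (i + 2) := hi2
      omega
    · omega
  omega

/-- [F8N A6N] the exponents are `±1`. -/
theorem p_A6A (hg1 : S_g1) (hg2 : S_g2) (hg3 : S_g3) : S_A6A := by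
  intro q hq a₀ e hcop hcomp htr0
  obtain ⟨n, hn1⟩ : ∃ n : ℕ, n = 1 := ⟨1, rfl⟩
  have hn : 1 ≤ n := hn1.ge
  have htr : ∀ M m : ℕ, 0 < M → 0 < m → thu q (ZMod M) ^ m = 1 →
      (a₀ : ZMod M) = (thu q (ZMod M) ^ ((n : ℤ) * e m)).val.trace := by
    intro M m hM hm h
    rw [hn1, Nat.cast_one, one_mul]
    exact htr0 M m hM hm h
  have hone := A6N_one hg1 hg2 hg3 q hq n hn a₀ e hcop htr
  obtain ⟨-, -, -, -, hmono, hge, hLmono, hLpos, hLf⟩ := hg1 q hq
  have hst : StrictMono fun n : ℕ => Lq q (n : ℤ) := by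
    refine strictMono_nat_of_lt_succ fun n => ?_
    have := hLmono n
    push_cast
    exact this
  obtain ⟨i₀, hi₀⟩ : ∃ i₀ : ℕ, i₀ = a₀.natAbs + 1 + n := ⟨_, rfl⟩
  have hbig : ∀ i : ℕ, i₀ ≤ i → |a₀| < fq q i := by
    intro i hi
    have h1 := hge i
    have h2 : |a₀| = (a₀.natAbs : ℤ) := (Int.natCast_natAbs a₀).symm
    omega
  obtain ⟨k₀, hk0, -, hLk⟩ := hone i₀ (hbig i₀ le_rfl) (by omega)
  have hall : ∀ j : ℕ, i₀ + 2 ≤ j →
      ((2 * (j : ℤ)) ∣ n * e (2 * j) - k₀ ∨ (2 * (j : ℤ)) ∣ n * e (2 * j) + k₀) := by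
    intro j hj
    obtain ⟨i, rfl⟩ : ∃ i, j = i + 2 := ⟨j - 2, by omega⟩
    obtain ⟨k, -, hkd, hL⟩ := hone i (hbig i (by omega)) (by omega)
    have hkk : k = k₀ := hst.injective (by
      rw [hL, hLk])
    subst hkk
    exact hkd
  have hk1 : k₀ = n := by
    obtain ⟨j, hj⟩ : ∃ j : ℕ, j = n * k₀ * (i₀ + 2) := ⟨_, rfl⟩
    have hj2 : i₀ + 2 ≤ j := by
      rw [hj]; exact Nat.le_mul_of_pos_left _ (Nat.mul_pos hn hk0)
    have h1 := hall j hj2
    have hjn : (n : ℤ) ∣ 2 * (j : ℤ) := by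
      refine Dvd.dvd.mul_left ?_ 2
      rw [hj, mul_assoc]
      exact_mod_cast Dvd.intro _ rfl
    have hjk : (k₀ : ℤ) ∣ 2 * (j : ℤ) := by
      refine Dvd.dvd.mul_left ?_ 2
      rw [hj, mul_comm n k₀, mul_assoc]
      exact_mod_cast Dvd.intro _ rfl
    have hcp : IsCoprime (k₀ : ℤ) (e (2 * j)) := by
      refine ((hcop (2 * j) (by omega)).of_isCoprime_of_dvd_right ?_).symm
      push_cast
      exact hjk
    have hne : (n : ℤ) ∣ n * e (2 * j) := Dvd.intro _ rfl
    have ha : (n : ℤ) ∣ k₀ := by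
      rcases h1 with h1 | h1
      · have := dvd_sub hne (hjn.trans h1)
        rwa [sub_sub_cancel] at this
      · have := dvd_sub (hjn.trans h1) hne
        rwa [add_sub_cancel_left] at this
    have hb : (k₀ : ℤ) ∣ n := by
      have h2 : (k₀ : ℤ) ∣ n * e (2 * j) := by
        rcases h1 with h1 | h1
        · have := dvd_add (hjk.trans h1) (dvd_refl (k₀ : ℤ))
          rwa [sub_add_cancel] at this
        · have := dvd_sub (hjk.trans h1) (dvd_refl (k₀ : ℤ))
          rwa [add_sub_cancel_right] at this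
      exact hcp.dvd_of_dvd_mul_right h2
    exact Nat.dvd_antisymm (by exact_mod_cast hb) (by exact_mod_cast ha)
  subst hk1
  have hpm : ∀ m : ℕ, 0 < m → (m : ℤ) ∣ e m - 1 ∨ (m : ℤ) ∣ e m + 1 := by
    intro m hm
    obtain ⟨j, hj⟩ : ∃ j : ℕ, j = k₀ * (m * (i₀ + 2)) := ⟨_, rfl⟩
    have hj2 : i₀ + 2 ≤ j := by
      rw [hj, ← mul_assoc]; exact Nat.le_mul_of_pos_left _ (Nat.mul_pos hk0 hm)
    have h1 := hall j hj2
    have hk0' : (k₀ : ℤ) ≠ 0 := by exact_mod_cast hk0.ne'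
    have hmj : m ∣ 2 * j := by
      refine Dvd.dvd.mul_left ?_ 2
      rw [hj]
      exact (Dvd.intro _ rfl : m ∣ m * (i₀ + 2)).mul_left k₀
    have h2 := hcomp m (2 * j) hm (by omega) hmj
    have h2j : (2 * (j : ℤ)) = k₀ * (2 * (m * ((i₀ + 2 : ℕ) : ℤ))) := by
      rw [hj]
      push_cast
      ring
    have h3 : (m : ℤ) ∣ 2 * (m * ((i₀ + 2 : ℕ) : ℤ)) := (Dvd.intro _ rfl).mul_left 2
    rcases h1 with h1 | h1
    · left
      have h4 : (2 * (m * ((i₀ + 2 : ℕ) : ℤ))) ∣ e (2 * j) - 1 := by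
        rw [h2j, show (k₀ : ℤ) * e (2 * j) - k₀ = k₀ * (e (2 * j) - 1) by ring] at h1
        exact (mul_dvd_mul_iff_left hk0').mp h1
      have := dvd_add h2 (h3.trans h4)
      rwa [show e m - e (2 * j) + (e (2 * j) - 1) = e m - 1 by ring] at this
    · right
      have h4 : (2 * (m * ((i₀ + 2 : ℕ) : ℤ))) ∣ e (2 * j) + 1 := by
        rw [h2j, show (k₀ : ℤ) * e (2 * j) + k₀ = k₀ * (e (2 * j) + 1) by ring] at h1
        exact (mul_dvd_mul_iff_left hk0').mp h1
      have := dvd_add h2 (h3.trans h4)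
      rwa [show e m - e (2 * j) + (e (2 * j) + 1) = e m + 1 by ring] at this
  by_contra hcon
  rw [not_or] at hcon
  obtain ⟨hc1, hc2⟩ := hcon
  push Not at hc1 hc2
  obtain ⟨m, hm, hm1⟩ := hc1
  obtain ⟨m', hm', hm1'⟩ := hc2
  have hmm : 0 < m * m' := Nat.mul_pos hm hm'
  rcases hpm (m * m') hmm with h | h
  · apply hm1
    have h2 := hcomp m (m * m') hm hmm (Dvd.intro _ rfl)
    have h3 : (m : ℤ) ∣ ((m * m' : ℕ) : ℤ) := by
      exact_mod_cast Dvd.intro _ rfl
    have := dvd_add h2 (h3.trans h)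
    have he : e m - e (m * m') + (e (m * m') - 1) = e m - 1 := by ring
    rwa [he] at this
  · apply hm1'
    have h2 := hcomp m' (m * m') hm' hmm (Dvd.intro_left _ rfl)
    have h3 : (m' : ℤ) ∣ ((m * m' : ℕ) : ℤ) := by
      exact_mod_cast Dvd.intro_left _ rfl
    have := dvd_add h2 (h3.trans h)
    have he : e m' - e (m * m') + (e (m * m') + 1) = e m' + 1 := by ring
    rwa [he] at this


end Pool.Agent.F8.NG.A
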