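import Pool.Agent.Lib.MP_305fdd_al.F8.NG.A.P_ab
import Pool.Agent.Lib.MP_305fdd_al.F8.NG.A.P_ar
import Pool.Agent.Lib.MP_305fdd_al.F8.NG.A.P_A
import Pool.Agent.Lib.MP_305fdd_al.F8.NG.A.P_A1
import Pool.Agent.Lib.MP_305fdd_al.F8.NG.A.P_NAG

/-!
# MP_305fdd_al: block NA for all hyperbolic monodromies of determinant one
-/

set_option autoImplicit false

namespace Pool.Agent.F8.NG.A

theorem all_g2 : S_g2 := p_g2 p_g1
theorem all_g3 : S_g3 := p_g3 p_g1 all_g2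

/-- BLOCK NA for hyperbolic matrices of determinant one -/
theorem all_NAG : AB.S_NAG :=
  p_NAG (p_abA p_chA) (p_u1A (p_B1A p_chA)) (p_A1A p_TA) (p_A2A p_g1) p_A4A p_A5A
    (p_A6A p_g1 all_g2 all_g3)

end Pool.Agent.F8.NG.A
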