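import Pool.Agent.Lib.MP_305fdd_al.F8.NG.A.Stm
import Pool.Agent.Lib.MP_305fdd_al.F8.MainPT

/-!
# MP_305fdd_al, hyperbolic monodromies: abelianisation, exceptional values
-/

set_option autoImplicit false

namespace Pool.Agent.F8.NG.A

open Pool.Agent.MP_305fdd_al Pool.Agent.Lib.MP_305fdd_al Pool.Agent.F2X Pool.Agent.F8
  Pool.Agent.F8.HN
open scoped QuadraticAlgebra



private theorem chn_vec {A : Type} [CommGroup A] (f : F →* A) (w : F) :
    f w = f ga ^ (vec w 0) * f gb ^ (vec w 1) := by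
  let h : F →* A :=
    { toFun := fun w => f ga ^ (vec w 0) * f gb ^ (vec w 1)
      map_one' := by simp
      map_mul' := fun x y => by
        rw [vec_mul, Pi.add_apply, Pi.add_apply, zpow_add, zpow_add]
        exact mul_mul_mul_comm _ _ _ _ }
  have hfh : f = h := by
    ext j
    show f (FreeGroup.of j) =
      f ga ^ (vec (FreeGroup.of j) 0) * f gb ^ (vec (FreeGroup.of j) 1)
    rw [vec_of]
    fin_cases j <;> simp
  exact DFunLike.congr_fun hfh w

private theorem chn_mat (M : Matrix (Fin 2) (Fin 2) ℤ) (u : Fin 2 → ℤ) (L : ℤ)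
    (ht : M.trace = L) (hd : M.det = 1) (i : Fin 2) :
    M.mulVec (M.mulVec u) i = L * M.mulVec u i - u i := by
  rw [Matrix.trace_fin_two] at ht
  rw [Matrix.det_fin_two] at hd
  subst ht
  fin_cases i
  · simp [Matrix.mulVec, dotProduct, Fin.sum_univ_two]
    linear_combination (- u 0) * hd
  · simp [Matrix.mulVec, dotProduct, Fin.sum_univ_two]
    linear_combination (- u 1) * hd

theorem p_chA : S_chA := by
  intro α q hq A _ f w
  have h := chn_mat (AM α).val (vec w) q hq.tr hq.det
  rw [chn_vec f (α (α w)), AM_vec, AM_vec, h 0, h 1,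
    chn_vec f (α w), AM_vec, chn_vec f w, zpow_sub, zpow_sub, mul_zpow, mul_inv,
    ← zpow_mul, ← zpow_mul, mul_comm q, mul_comm q]
  exact mul_mul_mul_comm _ _ _ _




/-- the abelianisation of `GN n` -/
theorem p_abA (hchA : S_chA) : S_abA := by
  intro α q hq
  have hL : 2 < q := hq.two
  refine ⟨?_, (q - 2).toNat, by omega, ?_⟩
  · intro z
    refine ⟨tA α ^ (Multiplicative.toAdd z), ?_⟩
    rw [map_zpow, nA_tA, ← ofAdd_zsmul]
    simp
  · intro A _ f x hx
    obtain ⟨w, k, rfl⟩ := GA_cases α x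
    rw [map_mul, map_zpow, nA_iA, nA_tA, one_mul, ← ofAdd_zsmul] at hx
    have hk : k = 0 := by
      have h1 : k • (1 : ℤ) = 0 := hx
      simpa using h1
    subst hk
    rw [zpow_zero, mul_one]
    have h2 : f (iA α (α w)) = f (iA α w) := by
      rw [← tA_conj, map_mul, map_mul, map_inv, mul_comm (f (tA α)), mul_inv_cancel_right]
    have h3 : f (iA α (α (α w))) = f (iA α (α w)) := by
      rw [← tA_conj α (α w), map_mul, map_mul, map_inv, mul_comm (f (tA α)),
        mul_inv_cancel_right]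
    have h4 := hchA α q hq A (f.comp (iA α)) w
    rw [MonoidHom.comp_apply, MonoidHom.comp_apply, MonoidHom.comp_apply, h3, h2] at h4
    have h5 : f (iA α w) ^ (q - 2) = 1 := by
      have h6 : f (iA α w) ^ (q - 2) = f (iA α w) ^ (q) * (f (iA α w))⁻¹ * (f (iA α w))⁻¹ := by
        rw [show q - 2 = q - 1 - 1 by ring, zpow_sub_one, zpow_sub_one]
      rw [h6, ← h4, mul_inv_cancel]
    rw [← zpow_natCast, Int.toNat_of_nonneg (by omega), h5]




/-- translation part of a product if the first matrix is trivial -/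
private theorem B1N_mul_v {K : Type} [CommRing K] (x y : Q2 K) (hx : x.m = 1) (i : Fin 2) :
    (x * y).v i = x.v i + x.t.val * y.v i := by
  rw [Q2.mul_v, hx]
  simp

/-- translation part of the inverse if the matrix is trivial -/
private theorem B1N_inv_v {K : Type} [CommRing K] (x : Q2 K) (hx : x.m = 1) (i : Fin 2) :
    (x⁻¹).v i = -((x.t⁻¹).val * x.v i) := by
  rw [Q2.inv_v, hx]
  simp

/-- the subgroup of elements with trivial matrix and translation proportional to `x.t - 1` -/
private def B1N_H {K : Type} [CommRing K] (p : K) (y : Fin 2 → K) : Subgroup (Q2 K) where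
  carrier := {x | x.m = 1 ∧ ∀ i, (p - 1) * x.v i = (x.t.val - 1) * y i}
  one_mem' := ⟨rfl, by intro i; simp⟩
  mul_mem' := by
    rintro x z ⟨hx, hx'⟩ ⟨hz, hz'⟩
    refine ⟨by rw [Q2.mul_m, hx, hz, one_mul], ?_⟩
    intro i
    rw [B1N_mul_v x z hx, Q2.mul_t, Units.val_mul]
    linear_combination hx' i + x.t.val * hz' i
  inv_mem' := by
    rintro x ⟨hx, hx'⟩
    refine ⟨by rw [Q2.inv_m, hx, inv_one], ?_⟩
    intro i
    rw [B1N_inv_v x hx, Q2.inv_t]
    have h : (x.t⁻¹).val * x.t.val = 1 := by rw [← Units.val_mul, inv_mul_cancel, Units.val_one]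
    linear_combination (-(x.t⁻¹).val) * hx' i - y i * h

/-- the obstruction for elements with trivial matrix part -/
private theorem B1N_W {K : Type} [CommRing K] (x y : Q2 K) (hx : x.m = 1) (hy : y.m = 1) (i : Fin 2) :
    Q2.W x y i = (x.t.val - 1) * (x.t.val - 1) * y.v i - (y.t.val - 1) * (x.t.val - 1) * x.v i := by
  have h : ∀ z : Q2 K, z.m = 1 → Q2.X z = !![z.t.val - 1, 0; 0, z.t.val - 1] := by
    intro z hz
    unfold Q2.X
    rw [hz]
    ext i j
    fin_cases i <;> fin_cases j <;> simp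
  unfold Q2.W
  rw [h x hx, h y hy, Matrix.det_fin_two_of, Matrix.adjugate_fin_two_of, mulVec2, mulVec2]
  fin_cases i
  · simp
    ring
  · simp
    ring

theorem p_B1A (hchA : S_chA) : S_B1A := by
  intro α q hαq K _ τ
  rintro ⟨Θ, ht, hm, g, h, hgh⟩
  by_contra hτ
  apply hgh
  have hT : ∀ g : GA α, (Θ g).t = pw τ (nA α g) := fun g => DFunLike.congr_fun ht g
  have hM : ∀ g : GA α, (Θ g).m = 1 := fun g => DFunLike.congr_fun hm g
  have ti : ∀ w, (Θ (iA α w)).t = 1 := by
    intro w
    rw [hT, nA_iA, map_one]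
  have ta : (Θ (tA α)).t = τ := by rw [hT, nA_tA, pw_ofAdd, zpow_one]
  -- the additive map
  let f : F →* Multiplicative (Fin 2 → K) :=
    { toFun := fun w => Multiplicative.ofAdd (Θ (iA α w)).v
      map_one' := by
        rw [map_one, map_one]
        rfl
      map_mul' := fun x y => by
        rw [← ofAdd_add, map_mul, map_mul]
        congr 1
        ext i
        rw [B1N_mul_v _ _ (hM _), ti, Units.val_one, one_mul]
        rfl }
  have hconj : ∀ w i, (Θ (iA α (α w))).v i = τ.val * (Θ (iA α w)).v i := by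
    intro w i
    have r1 : Θ (tA α) * Θ (iA α w) = Θ (iA α (α w)) * Θ (tA α) := by
      rw [← map_mul, ← map_mul]
      exact congrArg Θ (mul_inv_eq_iff_eq_mul.1 (tA_conj α w))
    have h2 := congrFun (congrArg Q2.v r1) i
    rw [B1N_mul_v _ _ (hM _), B1N_mul_v _ _ (hM _), ta, ti, Units.val_one, one_mul] at h2
    linear_combination -h2
  have hq : τ.val * τ.val - (q : K) * τ.val + 1 ≠ 0 := by
    intro h0
    apply hτ
    linear_combination h0
  have v0 : ∀ w i, (Θ (iA α w)).v i = 0 := by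
    intro w i
    have h1 := hchA α q hαq _ f w
    have h2 := congrFun (congrArg Multiplicative.toAdd h1) i
    have h3 : (Θ (iA α (α (α w)))).v i =
        (q : K) * (Θ (iA α (α w))).v i - (Θ (iA α w)).v i := by
      have h4 : Multiplicative.toAdd (f (α w) ^ q * (f w)⁻¹) i =
          (q : K) * (Θ (iA α (α w))).v i - (Θ (iA α w)).v i := by
        rw [toAdd_mul, toAdd_zpow, toAdd_inv, Pi.add_apply, Pi.neg_apply, Pi.smul_apply,
          zsmul_eq_mul, sub_eq_add_neg]
        rfl
      rw [← h4, ← h2]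
      rfl
    rw [hconj, hconj] at h3
    have h0 : (τ.val * τ.val - (q : K) * τ.val + 1) * (Θ (iA α w)).v i = 0 := by
      linear_combination h3
    rcases mul_eq_zero.1 h0 with h1 | h1
    · exact absurd h1 hq
    · exact h1
  let H : Subgroup (GA α) := (B1N_H τ.val (Θ (tA α)).v).comap Θ
  have hiH : ∀ w, iA α w ∈ H := fun w => ⟨hM _, by intro i; rw [v0, ti, Units.val_one]; ring⟩
  have htH : tA α ∈ H := ⟨hM _, by intro i; rw [ta]⟩
  have key : ∀ (g : GA α) (i : Fin 2),
      (τ.val - 1) * (Θ g).v i = ((Θ g).t.val - 1) * (Θ (tA α)).v i := by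
    intro g
    obtain ⟨w, k, hg⟩ := GA_cases α g
    have h1 : g ∈ H := by
      rw [hg]
      exact H.mul_mem (hiH w) (H.zpow_mem htH k)
    exact h1.2
  ext i
  rw [B1N_W _ _ (hM _) (hM _), Pi.zero_apply]
  by_cases h1 : τ = 1
  · have h2 : ∀ g : GA α, (Θ g).t = 1 := by
      intro g
      rw [hT, h1, zpowersHom_apply, one_zpow]
    rw [h2, h2, Units.val_one]
    ring
  · have h2 : τ.val - 1 ≠ 0 := by
      intro h3
      apply h1
      apply Units.ext
      rw [Units.val_one]
      linear_combination h3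
    have h4 : (τ.val - 1) * (((Θ g).t.val - 1) * ((Θ g).t.val - 1) * (Θ h).v i -
        ((Θ h).t.val - 1) * ((Θ g).t.val - 1) * (Θ g).v i) = 0 := by
      linear_combination (((Θ g).t.val - 1) * ((Θ g).t.val - 1)) * key h i -
        (((Θ h).t.val - 1) * ((Θ g).t.val - 1)) * key g i
    rcases mul_eq_zero.1 h4 with h5 | h5
    · exact absurd h5 h2
    · exact h5




private theorem u1N_roots {k : Type} [Field k] (q x y z : k) (hx : x * x = q * x - 1)
    (hy : y * y = q * y - 1) (hz : z * z = q * z - 1) (hxy : x ≠ y) (hxz : x ≠ z) (hyz : y ≠ z) :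
    False := by
  have h1 : (x - y) * (x + y - q) = 0 := by linear_combination hx - hy
  have h2 : (x - z) * (x + z - q) = 0 := by linear_combination hx - hz
  have h3 : x + y - q = 0 := (mul_eq_zero.mp h1).resolve_left (sub_ne_zero.mpr hxy)
  have h4 : x + z - q = 0 := (mul_eq_zero.mp h2).resolve_left (sub_ne_zero.mpr hxz)
  exact hyz (by linear_combination h3 - h4)

theorem p_u1A (hB1A : S_B1A) : S_u1A := by
  intro α q hαq Λ _ _ Φ nL hn hE K _ _ hG
  obtain ⟨k, hk, hf, -, hk3⟩ := ((all_q1 K Λ nL 3 hn).1 hG).1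
  obtain ⟨τ, hτ, hP⟩ := all_m1G (GA α) Λ Φ (nA α) nL hE k 3 hk3
  have h : ∀ i, (τ i).val * (τ i).val = (q : k) * (τ i).val - 1 :=
    fun i => hB1A α q hαq k (τ i) (hP i)
  have hne : ∀ i j, i ≠ j → (τ i).val ≠ (τ j).val := by
    intro i j hij he
    exact hij (hτ (Units.ext he))
  exact u1N_roots _ _ _ _ (h 0) (h 1) (h 2) (hne 0 1 (by decide)) (hne 0 2 (by decide))
    (hne 1 2 (by decide))

end Pool.Agent.F8.NG.A
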