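import Pool.Agent.Lib.MP_305fdd_al.F8.StmNA
import Pool.Agent.Lib.MP_305fdd_al.F8.AB.DefsT

/-!
# MP_305fdd_al, once-punctured torus bundles with hyperbolic monodromy: regularity. Statements.

General form of `StmNA.lean`: `GA α` for `det (AM α) = 1`, `q = trace (AM α) > 2`. The exceptional values are
`θ ^ (± 1)`, `θ² = q θ - 1`.
-/

set_option autoImplicit false

namespace Pool.Agent.F8.NG.A

open Pool.Agent.MP_305fdd_al Pool.Agent.Lib.MP_305fdd_al Pool.Agent.F2X Pool.Agent.F8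
  Pool.Agent.F8.HN
open scoped QuadraticAlgebra

noncomputable section

/-- determinant one and trace `q > 2` -/
structure Hq (α : MulAut F) (q : ℤ) : Prop where
  /-- determinant -/
  det : (AM α).val.det = 1
  /-- trace -/
  tr : (AM α).val.trace = q
  /-- hyperbolic -/
  two : 2 < q

/-- the numbers `0, 1, q, q² - 1, ..` -/
def fq (q : ℤ) : ℕ → ℤ
  | 0 => 0
  | 1 => 1
  | (j + 2) => q * fq q (j + 1) - fq q j

/-- the traces of the powers of `θ` -/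
def Lq (q : ℤ) (e : ℤ) : ℤ := (thu q ℤ ^ e).val.trace

/-- the thing we know about the exceptional value `σ` over `ℤ_p[θ]` -/
structure SigA (q : ℤ) {G Λ : Type} [Group G] [Group Λ] (Φ : NatBij G Λ)
    (nG : G →* Multiplicative ℤ) (nL : Λ →* Multiplicative ℤ)
    (p : ℕ) [Fact p.Prime] (σ : (Qd q ℤ_[p])ˣ) : Prop where
  /-- it is exceptional under all homomorphisms to fields -/
  exc : ∀ (K : Type) [Field K] [CharZero K] (j : Qd q ℤ_[p] →+* K),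
    P1 nL K (Units.map j.toMonoidHom σ)
  /-- its reductions are powers of the generator -/
  red : ∀ (k m : ℕ) [NeZero m] (e : ℤ), ExG Φ nG nL m e → thu q (ZMod (p ^ k)) ^ m = 1 →
    Units.map (Qd.map q (PadicInt.toZModPow k)).toMonoidHom σ = thu q (ZMod (p ^ k)) ^ e

/-- Cayley-Hamilton -/
def S_chA : Prop := ∀ (α : MulAut F) (q : ℤ), Hq α q → ∀ (A : Type) [CommGroup A] (f : F →* A)
  (w : F), f (α (α w)) = f (α w) ^ q * (f w)⁻¹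

/-- the abelianisation -/
def S_abA : Prop := ∀ (α : MulAut F) (q : ℤ), Hq α q → IsAbF (nA α)

/-- the exceptional values of `GA α` -/
def S_B1A : Prop := ∀ (α : MulAut F) (q : ℤ), Hq α q → ∀ (K : Type) [Field K] (τ : Kˣ),
  P1 (nA α) K τ → τ.val * τ.val = (q : K) * τ.val - 1

/-- at most two exceptional values in characteristic zero -/
def S_u1A : Prop := ∀ (α : MulAut F) (q : ℤ), Hq α q → ∀ (Λ : Type) [Group Λ] [Group.FG Λ]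
  (Φ : NatBij (GA α) Λ) (nL : Λ →* Multiplicative ℤ), Function.Surjective nL →
  (∀ (m : ℕ) [NeZero m], ∃ e : ℤ, ExG Φ (nA α) nL m e ∧ IsCoprime e (m : ℤ)) →
  ∀ (K : Type) [Field K] [CharZero K], ¬ Good1 nL K 3

/-- the tautological affine representation of `GA α` -/
def S_TA : Prop := ∀ (α : MulAut F) (q : ℤ), Hq α q →
  ∃ (Θ : ∀ (R : Type) [CommRing R], GA α →* Q2 (Qd q R)) (g h : GA α) (D : ℤ), D ≠ 0 ∧
    (∀ (R S : Type) [CommRing R] [CommRing S] (f : R →+* S),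
      (Q2.map (Qd.map q f)).comp (Θ R) = Θ S) ∧
    ∀ (R : Type) [CommRing R], Q2.tH.comp (Θ R) = (pw (thu q R)).comp (nA α) ∧
      Q2.mH.comp (Θ R) = 1 ∧ (Q2.W (Θ R g) (Θ R h) 0).norm = (D : R)

/-- existence of `σ` -/
def S_A1A : Prop := ∀ (α : MulAut F) (q : ℤ), Hq α q → ∀ (Λ : Type) [Group Λ]
  (Φ : NatBij (GA α) Λ) (nL : Λ →* Multiplicative ℤ), Function.Surjective nL →
  (∀ (m : ℕ) [NeZero m], ∃ e : ℤ, ExG Φ (nA α) nL m e ∧ IsCoprime e (m : ℤ)) →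
  ∀ (p : ℕ) [Fact p.Prime], ∃ σ : (Qd q ℤ_[p])ˣ, SigA q Φ (nA α) nL p σ

/-- basic facts -/
def S_g1 : Prop := ∀ q : ℤ, 2 < q → (∀ j : ℕ, (thu q ℤ ^ (j + 1)).val = ⟨-fq q j, fq q (j + 1)⟩) ∧
  (∀ j : ℕ, fq q (j + 1) * fq q (j + 1) - q * fq q (j + 1) * fq q j + fq q j * fq q j = 1) ∧
  (∀ j : ℕ, Lq q ((j : ℤ) + 1) = q * fq q (j + 1) - 2 * fq q j) ∧
  (∀ e : ℤ, Lq q (-e) = Lq q e) ∧
  (∀ j : ℕ, fq q j < fq q (j + 1)) ∧ (∀ j : ℕ, (j : ℤ) ≤ fq q j) ∧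
  (∀ j : ℕ, Lq q j < Lq q (j + 1)) ∧
  (∀ j : ℕ, 0 < Lq q j) ∧ (∀ j : ℕ, Lq q ((j : ℤ) + 1) = fq q (j + 2) - fq q j)

/-- the period modulo `fq q j` -/
def S_g2 : Prop := ∀ q : ℤ, 2 < q → ∀ (j M : ℕ), 1 ≤ j → (M : ℤ) = fq q j →
  thu q (ZMod M) ^ (2 * j) = 1

/-- the representative -/
def S_g3 : Prop := ∀ q : ℤ, 2 < q → ∀ (j M : ℕ) (a : ℤ), 2 ≤ j → (M : ℤ) = fq q j →
  ¬ (j : ℤ) ∣ a → ∃ k : ℕ, 0 < k ∧ k < j ∧ ((2 * j : ℤ) ∣ a - k ∨ (2 * j : ℤ) ∣ a + k) ∧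
    (thu q (ZMod M) ^ a).val.trace = (Lq q k : ZMod M)

/-- `σ` has norm one and is not rational -/
def S_A2A : Prop := ∀ q : ℤ, 2 < q → ∀ (G Λ : Type) [Group G] [Group Λ] (Φ : NatBij G Λ)
  (nG : G →* Multiplicative ℤ) (nL : Λ →* Multiplicative ℤ),
  (∀ (m : ℕ) [NeZero m], ∃ e : ℤ, ExG Φ nG nL m e ∧ IsCoprime e (m : ℤ)) →
  ∀ (p : ℕ) [Fact p.Prime] (σ : (Qd q ℤ_[p])ˣ), SigA q Φ nG nL p σ →
  σ.val.norm = 1 ∧ σ.val.im ≠ 0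

/-- the trace of the monodromy is an integer -/
def S_A4A : Prop := ∀ q : ℤ, 2 < q → ∀ (Λ : Type) [Group Λ] [Group.FG Λ]
  (nL : Λ →* Multiplicative ℤ), Function.Surjective nL →
  (∀ (K : Type) [Field K] [CharZero K], ¬ Good1 nL K 3) →
  ∀ σ : (∀ (p : ℕ) [Fact p.Prime], (Qd q ℤ_[p])ˣ),
  (∀ (p : ℕ) [Fact p.Prime] (K : Type) [Field K] [CharZero K] (j : Qd q ℤ_[p] →+* K),
    P1 nL K (Units.map j.toMonoidHom (σ p))) →
  (∀ (p : ℕ) [Fact p.Prime], (σ p).val.im ≠ 0) →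
  ∃ a₀ : ℤ, ∀ (p : ℕ) [Fact p.Prime], (a₀ : ℤ_[p]) = (σ p).val.trace

/-- congruences for the trace -/
def S_A5A : Prop := ∀ (q : ℤ) (G Λ : Type) [Group G] [Group Λ] (Φ : NatBij G Λ)
  (nG : G →* Multiplicative ℤ) (nL : Λ →* Multiplicative ℤ)
  (σ : ∀ (p : ℕ) [Fact p.Prime], (Qd q ℤ_[p])ˣ),
  (∀ (p : ℕ) [Fact p.Prime], SigA q Φ nG nL p (σ p)) →
  ∀ a₀ : ℤ, (∀ (p : ℕ) [Fact p.Prime], (a₀ : ℤ_[p]) = (σ p).val.trace) →
  ∀ (M m : ℕ) [NeZero M] [NeZero m] (e : ℤ), ExG Φ nG nL m e → thu q (ZMod M) ^ m = 1 →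
  (a₀ : ZMod M) = (thu q (ZMod M) ^ e).val.trace

/-- the exponents are `±1` -/
def S_A6A : Prop := ∀ q : ℤ, 2 < q → ∀ (a₀ : ℤ) (e : ℕ → ℤ),
  (∀ m : ℕ, 0 < m → IsCoprime (e m) (m : ℤ)) →
  (∀ m m' : ℕ, 0 < m → 0 < m' → m ∣ m' → (m : ℤ) ∣ e m - e m') →
  (∀ M m : ℕ, 0 < M → 0 < m → thu q (ZMod M) ^ m = 1 →
    (a₀ : ZMod M) = (thu q (ZMod M) ^ (e m)).val.trace) →
  (∀ m : ℕ, 0 < m → (m : ℤ) ∣ e m - 1) ∨ (∀ m : ℕ, 0 < m → (m : ℤ) ∣ e m + 1)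

end

end Pool.Agent.F8.NG.A
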